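import Pool.Agent.KTB.StmtsKA

/-! # KTB, row UPH: the unmatched elements are multiples of the same function. -/

set_option autoImplicit false

namespace Pool.Agent.KTB.H5

open Finset Pool.Agent.KTB
open scoped Classical

theorem uph (hIDN : IdnStmt) (hRAY : RayStmt) (hSML : SmlStmt) (hCLO : CloStmt) : UphStmt := by
  intro ι T _ D S R p f M t U π kk hB u hu
  obtain ⟨-, -, hI3, hI4, hI5⟩ := hIDN ι T D S
  obtain ⟨-, ⟨s, hs1, hs2, ⟨ρ0, hρ0, hsρ0⟩, hs4⟩, -, -, -, -⟩ :=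
    hRAY ι T D S R p f hB.vd.2.1 hB.vd.1
  have hpt : 0 < p t := (hB.vd.2.1.2.1 t hB.tR).1
  have ht0 : ρ0 t ≠ 0 := by
    rw [hs1 ρ0 hρ0 t hB.tR]
    exact mul_ne_zero hpt.ne' hsρ0
  have husp := hB.us hu
  obtain ⟨huS, c0, hc0, huc⟩ := Finset.mem_filter.1 husp
  have hu0 : ρ0 u ≠ 0 := by
    rw [huc ρ0 hρ0]
    exact mul_ne_zero hc0.ne' ht0
  obtain ⟨l1, hl1⟩ := hB.ll.1
  have hl1' := hI4 l1 hl1 ρ0 hρ0
  set fu : (ι → ℚ) → ℚ := fun l => l u with hfu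
  set Q : Finset ι := S.filter fun y => ∃ c : ℚ, 0 < c ∧ ∀ l, D.Sol S l → l y = c * l u with hQ
  set pu : ι → ℚ := fun y => if h : ∃ c : ℚ, 0 < c ∧ ∀ l, D.Sol S l → l y = c * l u then
    h.choose else 1 with hpu
  have hpuQ : ∀ y ∈ Q, 0 < pu y ∧ ∀ l, D.Sol S l → l y = pu y * l u := by
    intro y hy
    have h := (Finset.mem_filter.1 hy).2
    have h1 : pu y = h.choose := by
      rw [hpu]
      exact dif_pos h
    rw [h1]
    exact h.choose_spec
  have hray : D.Ray S Q pu fu :=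
    ⟨Finset.filter_subset _ _, hpuQ, l1, l1 + ρ0, hl1, hl1', by
      intro h
      apply hu0
      have h1 : l1 u = l1 u + ρ0 u := h
      linarith⟩
  have hrel : ∀ y ∈ Q, ∀ ρ ∈ D.R S, ρ y = pu y * ρ u := by
    intro y hy ρ hρ
    have h1 := (hpuQ y hy).2 l1 hl1
    have h2 := (hpuQ y hy).2 (l1 + ρ) (hI4 l1 hl1 ρ hρ)
    simp only [Pi.add_apply] at h2
    linarith [h1, h2]
  have hQsp : ∀ y ∈ Q, y ∈ D.sp S t := by
    intro y hy
    refine Finset.mem_filter.2 ⟨(Finset.mem_filter.1 hy).1, pu y * c0,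
      mul_pos (hpuQ y hy).1 hc0, fun ρ hρ => ?_⟩
    rw [hrel y hy ρ hρ, huc ρ hρ, mul_assoc]
  have hdisj : ∀ y, y ∈ D.sm S t → y ∉ D.sp S t := by
    intro y hy hy'
    obtain ⟨-, c, hc, h1⟩ := Finset.mem_filter.1 hy
    obtain ⟨-, c', hc', h2⟩ := Finset.mem_filter.1 hy'
    have h3 := h1 ρ0 hρ0
    rw [h2 ρ0 hρ0] at h3
    have h4 : (c' + c) * ρ0 t = 0 := by linarith
    rcases mul_eq_zero.1 h4 with h5 | h5
    · linarith
    · exact ht0 h5
  set Wc : Finset ι := (D.sm S t).filter fun W => π W ∈ Q with hWc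
  have huQ : u ∈ Q := Finset.mem_filter.2 ⟨huS, 1, one_pos, fun l _ => (one_mul _).symm⟩
  obtain ⟨X, hX1, hX2, -, -, -, hX6, -⟩ := hCLO ι T D S Q Wc {u} pu fu π kk hB.ll hray
    (fun W hW => (Finset.mem_filter.1 (Finset.mem_filter.1 hW).1).1)
    (fun W hW => by
      obtain ⟨h1, h2⟩ := Finset.mem_filter.1 hW
      exact ⟨fun h => hdisj W h1 (hQsp W h), h2, hB.cln W h1⟩)
    (fun a ha b hb hab => hB.bij.injOn
      (Finset.mem_coe.2 (Finset.mem_filter.1 (Finset.mem_coe.1 ha)).1)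
      (Finset.mem_coe.2 (Finset.mem_filter.1 (Finset.mem_coe.1 hb)).1) hab)
    (fun Y hY c hc h => by
      have h1 : Y ∈ D.sm S t := by
        refine Finset.mem_filter.2 ⟨hY, c * c0, mul_pos hc hc0, fun ρ hρ => ?_⟩
        have h2 := h l1 hl1
        have h3 := h (l1 + ρ) (hI4 l1 hl1 ρ hρ)
        simp only [hfu, Pi.add_apply] at h2 h3
        have h4 := huc ρ hρ
        rw [h4] at h3
        linarith
      refine Finset.mem_filter.2 ⟨h1, ?_⟩
      have hcl := hB.cln Y h1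
      refine Finset.mem_filter.2 ⟨hcl.2.1, c, hc, fun l hl => ?_⟩
      have h2 := (hI5 _ _ _ hcl).1 l hl
      have h3 := h l hl
      simp only [hfu] at h3
      linarith)
    (by
      intro y hy
      rw [Finset.mem_singleton] at hy
      rw [hy]
      exact huQ)
    (fun W hW h => by
      exfalso
      rw [Finset.mem_singleton] at h
      have h1 := hB.bij.mapsTo (Finset.mem_coe.2 (Finset.mem_filter.1 hW).1)
      rw [h] at h1
      exact (Finset.mem_sdiff.1 (Finset.mem_coe.1 h1)).2 hu)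
  have huX : u ∈ X := hX1 (Finset.mem_singleton_self u)
  have hvX : D.Vd S X pu fu := hX6 ⟨u, huX⟩
  obtain ⟨M', hM'⟩ := hB.all X ⟨pu, fu, hvX⟩
  obtain ⟨-, ⟨s', hs1', -, -, hs4'⟩, -, -, -, -⟩ := hRAY ι T D S X pu fu hvX.2.1 hvX.1
  have hss : ∀ ρ ∈ D.R S, (s ρ = 0 ↔ s' ρ = 0) := by
    intro ρ hρ
    have h1 := huc ρ hρ
    rw [hs1' ρ hρ u huX, hs1 ρ hρ t hB.tR] at h1
    have h2 := (hpuQ u huQ).1
    constructor
    · intro h3
      rw [h3, mul_zero, mul_zero] at h1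
      exact (mul_eq_zero.1 h1).resolve_left h2.ne'
    · intro h3
      rw [h3, mul_zero] at h1
      exact (mul_eq_zero.1 ((mul_eq_zero.1 h1.symm).resolve_left hc0.ne')).resolve_left hpt.ne'
  have hmono : ∀ (A : Finset ι) (ρ : ι → ℚ), ρ ∈ D.R (S \ A) → ρ ∈ D.R S := by
    intro A ρ hρ
    exact ⟨hρ.1, fun a ha => hρ.2 a (fun h => ha (Finset.mem_sdiff.1 h).1)⟩
  have hN : D.N (S \ R) = D.N (S \ X) := by
    ext a
    constructor
    · intro ha
      obtain ⟨-, ρ, hρ, hρa⟩ := Finset.mem_filter.1 ha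
      have h1 := hmono R ρ hρ
      have h2 : ρ ∈ D.R (S \ X) := (hs4' ρ h1).2 ((hss ρ h1).1 ((hs4 ρ h1).1 hρ))
      refine Finset.mem_filter.2 ⟨?_, ρ, h2, hρa⟩
      by_contra h3
      exact hρa (h2.2 a h3)
    · intro ha
      obtain ⟨-, ρ, hρ, hρa⟩ := Finset.mem_filter.1 ha
      have h1 := hmono X ρ hρ
      have h2 : ρ ∈ D.R (S \ R) := (hs4 ρ h1).2 ((hss ρ h1).2 ((hs4' ρ h1).1 hρ))
      refine Finset.mem_filter.2 ⟨?_, ρ, h2, hρa⟩
      by_contra h3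
      exact hρa (h2.2 a h3)
  exact hSML ι T D S R X p pu f fu M M' hB.vd hvX hN hB.tm.2.1 hM'.2.1 hB.tch

end Pool.Agent.KTB.H5
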